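import Pool.Agent.UZ.Partners

/-!
# Every differentiable function agrees with a twice differentiable one on a perfect set
-/

namespace Pool.Agent.Results.MP_8d66ab_an.PerfectAgreement

/-- The class of the functions that are `n` times differentiable at every point of the line. -/
def D : ℕ → (ℝ → ℝ) → Prop
  | 0, _ => True
  | n + 1, f => ∃ f' : ℝ → ℝ, (∀ x : ℝ, HasDerivAt f (f' x) x) ∧ D n f'

/-- `[f = g]`. -/
def Agree (f g : ℝ → ℝ) : Set ℝ := {x : ℝ | f x = g x}

/-- **Full positive answer to Q1**: for every `g` in `D^1` there is `f` in `D^2`, even with a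
continuous second derivative, such that `[f = g]` is uncountable; it contains a nonempty
perfect set. -/
theorem result : ∀ g : ℝ → ℝ, D 1 g →
    ∃ f : ℝ → ℝ, D 2 f ∧ ContDiff ℝ 2 f ∧ ¬ (Agree f g).Countable ∧
      ∃ P : Set ℝ, P.Nonempty ∧ IsClosed P ∧ (∀ x ∈ P, ∀ ε : ℝ, 0 < ε → ∃ y ∈ P, y ≠ x ∧ |y - x| < ε)
        ∧ ∀ x ∈ P, f x = g x := by
  rintro g ⟨g', hg', -⟩
  have hg : Differentiable ℝ g := fun x => (hg' x).differentiableAt
  obtain ⟨F, hF⟩ := Pool.Agent.UZ.main g hg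
  have hcf : Continuous F.f := continuous_iff_continuousAt.2 fun x => (F.h1 x).continuousAt
  have hcl : IsClosed {x : ℝ | F.f x = g x} := isClosed_eq hcf hg.continuous
  have hd1 : deriv F.f = F.f1 := funext fun t => (F.h1 t).deriv
  have hd2 : deriv F.f1 = F.f2 := funext fun t => (F.h2 t).deriv
  have hC1 : ContDiff ℝ 1 F.f1 := by
    rw [contDiff_one_iff_deriv]
    exact ⟨fun x => (F.h2 x).differentiableAt, by rw [hd2]; exact F.hc⟩
  have hC2 : ContDiff ℝ 2 F.f := by
    have : (2 : WithTop ℕ∞) = 1 + 1 := by norm_num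
    rw [this, contDiff_succ_iff_deriv]
    refine ⟨fun x => (F.h1 x).differentiableAt, by simp, ?_⟩
    rw [hd1]
    exact hC1
  obtain ⟨P, hP1, hP2, hP3⟩ := exists_perfect_nonempty_of_isClosed_of_not_countable hcl hF
  refine ⟨F.f, ⟨F.f1, F.h1, F.f2, F.h2, trivial⟩, hC2, hF, P, hP2, hP1.closed, ?_,
    fun x hx => hP3 hx⟩
  intro x hx ε hε
  have h1 := hP1.acc x hx
  rw [accPt_iff_nhds] at h1
  obtain ⟨y, ⟨hy1, hy2⟩, hy3⟩ := h1 (Metric.ball x ε) (Metric.ball_mem_nhds x hε)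
  exact ⟨y, hy2, hy3, by rwa [Metric.mem_ball, Real.dist_eq] at hy1⟩

end Pool.Agent.Results.MP_8d66ab_an.PerfectAgreement
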